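import Pool.Agent.N139.MS.Stm
import Pool.Agent.W637.RC.PTD

/-!
# Project MS, part HSV: the Hilbert-Schmidt version of `S_INV`
-/

set_option autoImplicit false

namespace Pool.Agent.N78.MS

open Filter Topology Matrix
open Pool.Agent.W661.RC (HasT Mt hs)
open Pool.Agent.W683.RC
open Pool.Agent.W637.RC.PTD
open Pool.Agent.N139.MS

noncomputable section

variable {d k : ℕ}

lemma on_nonneg (M : Mt d) : 0 ≤ on M := norm_nonneg _

lemma on_conj (M : Mt d) : on Mᴴ = on M := by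
  unfold on
  rw [← Matrix.star_eq_conjTranspose, map_star, ContinuousLinearMap.star_eq_adjoint]
  exact LinearIsometryEquiv.norm_map ContinuousLinearMap.adjoint _

lemma on_mulVec (M : Mt d) (v : Fin d → ℂ) :
    ∑ i, ‖(M *ᵥ v) i‖ ^ 2 ≤ on M ^ 2 * ∑ i, ‖v i‖ ^ 2 := by
  have h := (Matrix.toEuclideanCLM (n := Fin d) (𝕜 := ℂ) M).le_opNorm (WithLp.toLp 2 v)
  have h1 := pow_le_pow_left₀ (norm_nonneg _) h 2
  rw [mul_pow, EuclideanSpace.norm_sq_eq, EuclideanSpace.norm_sq_eq] at h1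
  exact h1

lemma hs_mul_on (M x : Mt d) : hs (M * x) ≤ on M ^ 2 * hs x := by
  unfold hs
  rw [Finset.sum_comm, Finset.sum_comm (f := fun i j => ‖x i j‖ ^ 2), Finset.mul_sum]
  refine Finset.sum_le_sum fun j _ => ?_
  have h := on_mulVec M (fun i => x i j)
  refine le_trans (le_of_eq ?_) h
  rfl

lemma hs_mul_on' (M x : Mt d) : hs (x * M) ≤ on M ^ 2 * hs x := by
  have h := hs_mul_on Mᴴ xᴴ
  rwa [← Matrix.conjTranspose_mul, hs_conjTranspose, hs_conjTranspose, on_conj] at h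

lemma nvc_mul (M x : Mt d) : ‖vc (M * x)‖ ≤ on M * ‖vc x‖ := by
  have h := hs_mul_on M x
  rw [hs_eq_norm, hs_eq_norm, ← mul_pow] at h
  exact le_of_sq_le_sq h (mul_nonneg (on_nonneg _) (norm_nonneg _))

lemma nvc_mul' (M x : Mt d) : ‖vc (x * M)‖ ≤ on M * ‖vc x‖ := by
  have h := hs_mul_on' M x
  rw [hs_eq_norm, hs_eq_norm, ← mul_pow] at h
  exact le_of_sq_le_sq h (mul_nonneg (on_nonneg _) (norm_nonneg _))

lemma nvc_unit_mul (A : Matrix.unitaryGroup (Fin d) ℂ) (x : Mt d) :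
    ‖vc ((A : Mt d) * x)‖ = ‖vc x‖ := by
  rw [← sqrt_hs, ← sqrt_hs, hs_unit_mul (uni A)]

lemma nvc_mul_unit (A : Matrix.unitaryGroup (Fin d) ℂ) (x : Mt d) :
    ‖vc (x * (A : Mt d)ᴴ)‖ = ‖vc x‖ := by
  rw [← sqrt_hs, ← sqrt_hs, hs_mul_unit (unit_conj (uni A))]

/-- `|A x A* - B x B*| ≤ 2 |A - B| |x|` -/
lemma rp_diff (A B : Matrix.unitaryGroup (Fin d) ℂ)
    (v : EuclideanSpace ℂ (Fin d × Fin d)) :
    ‖((rp A : unitary _) : EuclideanSpace ℂ (Fin d × Fin d) →L[ℂ]
        EuclideanSpace ℂ (Fin d × Fin d)) v -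
      ((rp B : unitary _) : EuclideanSpace ℂ (Fin d × Fin d) →L[ℂ]
        EuclideanSpace ℂ (Fin d × Fin d)) v‖ ≤ 2 * on ((A : Mt d) - (B : Mt d)) * ‖v‖ := by
  obtain ⟨x, rfl⟩ : ∃ x : Mt d, vc x = v := ⟨fun i j => v (i, j), rfl⟩
  rw [rp_vc, rp_vc, ← vc_sub]
  have e : (A : Mt d) * x * (A : Mt d)ᴴ - (B : Mt d) * x * (B : Mt d)ᴴ =
      ((A : Mt d) - (B : Mt d)) * x * (A : Mt d)ᴴ +
        (B : Mt d) * (x * ((A : Mt d) - (B : Mt d))ᴴ) := by
    rw [Matrix.conjTranspose_sub]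
    noncomm_ring
  rw [e, vc_add]
  refine (norm_add_le _ _).trans ?_
  rw [nvc_mul_unit, nvc_unit_mul]
  have h1 := nvc_mul ((A : Mt d) - (B : Mt d)) x
  have h2 := nvc_mul' ((A : Mt d) - (B : Mt d))ᴴ x
  rw [on_conj] at h2
  linarith

lemma rp_one_diff (A : Matrix.unitaryGroup (Fin d) ℂ)
    (v : EuclideanSpace ℂ (Fin d × Fin d)) :
    ‖((rp A : unitary _) : EuclideanSpace ℂ (Fin d × Fin d) →L[ℂ]
        EuclideanSpace ℂ (Fin d × Fin d)) v - v‖ ≤ 2 * on ((A : Mt d) - 1) * ‖v‖ := by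
  have h := rp_diff A 1 v
  rw [map_one] at h
  exact h

lemma E_rf (U : Fin k → Matrix.unitaryGroup (Fin d) ℂ) (x : Mt d) :
    E (rf U) (vc x) = ∑ s, hs ((U s : Mt d) * x - x * (U s : Mt d)) := by
  unfold E
  refine Finset.sum_congr rfl fun s _ => ?_
  rw [rf_sub, FreeGroup.lift_apply_of]

lemma rf_of (U : Fin k → Matrix.unitaryGroup (Fin d) ℂ) (s : Fin k) :
    rf U (FreeGroup.of s) = rp (U s) := by
  change rp (FreeGroup.lift U (FreeGroup.of s)) = _
  rw [FreeGroup.lift_apply_of]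

lemma comm_le (A : Matrix.unitaryGroup (Fin d) ℂ) (x : Mt d) :
    hs ((A : Mt d) * x - x * (A : Mt d)) ≤ 4 * hs x := by
  have h := hs_sub_le ((A : Mt d) * x) (x * (A : Mt d))
  rw [hs_unit_mul (uni A), hs_mul_unit (uni A)] at h
  linarith

theorem t_HSV (hI : S_INV) : S_HSV := by
  intro K _ k γ hK hγ ws l d U T hAH hTW x hx1 hx s0
  rw [Metric.tendsto_nhds]
  intro ε' hε'
  set ε : ℝ := ε' / (4 * k + 2) with hε
  have hk : (0 : ℝ) < 4 * k + 2 := by positivity
  have hε0 : 0 < ε := div_pos hε' hk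
  obtain ⟨δ, hδ, R, hR, hmain⟩ := hI K k γ hK hγ ws ε hε0
  have e1 : ∀ᶠ n in l, ∀ w ∈ R, on ((FreeGroup.lift (U n) w).val - 1) < δ / 2 := by
    rw [Filter.eventually_all_finset]
    intro w hw
    exact (hAH w (hR w hw)).eventually (gt_mem_nhds (by positivity))
  have e2 : ∀ᶠ n in l, ∀ s, on (((T n)⁻¹ * U n s * T n).val -
      (FreeGroup.lift (U n) (ws s)).val) < δ / 2 := by
    rw [Filter.eventually_all]
    intro s
    exact (hTW s).eventually (gt_mem_nhds (by positivity))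
  have e3 : ∀ᶠ n in l, ∑ s, hs ((U n s).val * x n - x n * (U n s).val) < δ * ε := by
    have h3 : Tendsto (fun n => ∑ s, hs ((U n s).val * x n - x n * (U n s).val)) l
        (𝓝 (∑ _s : Fin k, 0)) := tendsto_finsetSum _ fun s _ => hx s
    rw [Finset.sum_const_zero] at h3
    exact h3.eventually (gt_mem_nhds (by positivity))
  filter_upwards [e1, e2, e3] with n h1 h2 h3
  rw [Real.dist_eq, sub_zero, abs_of_nonneg (hs_nonneg _)]
  set y : Mt (d n) := (T n)⁻¹.val * x n * (T n).val with hy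
  have hyv : ((rp (T n)⁻¹ : unitary _) : EuclideanSpace ℂ (Fin (d n) × Fin (d n)) →L[ℂ]
      EuclideanSpace ℂ (Fin (d n) × Fin (d n))) (vc (x n)) = vc y := by
    rw [rp_vc, hy]
    congr 2
    rw [Matrix.UnitaryGroup.inv_val, Matrix.star_eq_conjTranspose,
      Matrix.conjTranspose_conjTranspose]
  have hsy : hs y = hs (x n) := by
    rw [hs_eq_norm, hs_eq_norm, ← hyv, rp_vc, nvc_mul_unit, nvc_unit_mul]
  have hsum : ∑ s, hs ((U n s).val * y - y * (U n s).val) ≤ (4 * k + 1) * ε := by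
    by_cases hc : hs (x n) ≤ ε
    · calc ∑ s, hs ((U n s).val * y - y * (U n s).val) ≤ ∑ _s : Fin k, 4 * ε := by
            refine Finset.sum_le_sum fun s _ => (comm_le (U n s) y).trans ?_
            rw [hsy]
            linarith
        _ = 4 * k * ε := by
            rw [Finset.sum_const, Finset.card_univ, Fintype.card_fin, nsmul_eq_mul]
            ring
        _ ≤ (4 * k + 1) * ε := by nlinarith
    · push Not at hc
      have h4 := hmain (EuclideanSpace ℂ (Fin (d n) × Fin (d n))) (rf (U n)) (rp (T n))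
        (fun w hw v => by
          refine (rp_one_diff (FreeGroup.lift (U n) w) v).trans ?_
          have := h1 w hw
          have := norm_nonneg v
          nlinarith)
        (fun s v => by
          have h5 : (rp (T n))⁻¹ * rf (U n) (FreeGroup.of s) * rp (T n) =
              rp ((T n)⁻¹ * U n s * T n) := by
            rw [MonoidHom.map_mul, MonoidHom.map_mul, MonoidHom.map_inv, rf_of]
          rw [h5]
          refine (rp_diff ((T n)⁻¹ * U n s * T n) (FreeGroup.lift (U n) (ws s)) v).trans ?_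
          have := h2 s
          have := norm_nonneg v
          nlinarith)
        (vc (x n)) (by
          rw [E_rf, ← hs_eq_norm]
          refine h3.le.trans ?_
          exact mul_le_mul_of_nonneg_left hc.le hδ.le)
      rw [← MonoidHom.map_inv, hyv, E_rf, ← hs_eq_norm] at h4
      refine h4.trans ?_
      have := hx1 n
      have : (0 : ℝ) ≤ k := Nat.cast_nonneg k
      have := hs_nonneg (x n)
      nlinarith
  have hle : hs ((U n s0).val * y - y * (U n s0).val) ≤
      ∑ s, hs ((U n s).val * y - y * (U n s).val) :=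
    Finset.single_le_sum (f := fun s => hs ((U n s).val * y - y * (U n s).val))
      (fun s _ => hs_nonneg _) (Finset.mem_univ s0)
  have hlast : (4 * k + 1) * ε < ε' := by
    rw [hε]
    rw [mul_div_assoc', div_lt_iff₀ hk]
    nlinarith
  exact lt_of_le_of_lt (hle.trans hsum) hlast

end

end Pool.Agent.N78.MS
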